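import Pool.Agent.helper45.SGC.Spec

/-!
# Row CON of project SGC: circuits with symmetric gates become ordinary circuits
-/

set_option autoImplicit false

namespace Pool.Agent.SGC

open Finset Pool.Agent.helper38.Neg Pool.Agent.helper55.NT

/-- the functions of the gates of rank `< k` -/
def CON_A {n s : ℕ} (C : SCirc n (Fin s)) (k : ℕ) : Set (Fn n) :=
  {f | ∃ g : Fin s, C.rank g < k ∧ f = fun x => C.val x g}

/-- one gate -/
theorem CON_gate (hCTS : CTS_stmt) {n s : ℕ} (C : SCirc n (Fin s)) (g : Fin s) :
    RN (CON_A C (C.rank g)) (8 * (s + 2) ^ 2) {fun x => C.val x g} := by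
  cases hl : C.lab g with
  | some p =>
    have h1 : (fun x => C.val x g) = fun x : Fin n → Bool => x p := by
      funext x
      exact C.val_some x g p hl
    rw [h1]
    exact Rel.mono (Rel.var (CON_A C (C.rank g)) p) le_rfl subset_rfl (Nat.zero_le _) (Nat.zero_le _)
  | none =>
    have e := (C.kids g).equivFin
    have h1 := hCTS n (C.kids g).card (fun i x => C.val x (e.symm i)) (C.fn g)
    have h2 : (fun x : Fin n → Bool => C.fn g (univ.filter fun i : Fin (C.kids g).card =>
        C.val x (e.symm i) = true).card) = fun x => C.val x g := by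
      funext x
      rw [C.val_none x g hl]
      congr 1
      rw [← Finset.card_map (f := e.symm.toEmbedding.trans (Function.Embedding.subtype _))]
      congr 1
      ext h
      simp only [mem_map, mem_filter, mem_univ, true_and, Function.Embedding.trans_apply,
        Equiv.coe_toEmbedding, Function.Embedding.subtype_apply]
      constructor
      · rintro ⟨i, hi, rfl⟩
        exact ⟨(e.symm i).2, hi⟩
      · rintro ⟨hh, hv⟩
        refine ⟨e ⟨h, hh⟩, ?_, ?_⟩
        · rw [Equiv.symm_apply_apply]
          exact hv
        · rw [Equiv.symm_apply_apply]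
    rw [h2] at h1
    refine RN.mono h1 ?_ subset_rfl ?_
    · rintro _ ⟨i, rfl⟩
      exact ⟨(e.symm i : Fin s), C.acyc g _ (e.symm i).2, rfl⟩
    · have h3 : (C.kids g).card ≤ s := by
        have h4 := Finset.card_le_univ (C.kids g)
        rwa [Fintype.card_fin] at h4
      have h5 : ((C.kids g).card + 2) ^ 2 ≤ (s + 2) ^ 2 := Nat.pow_le_pow_left (by omega) 2
      exact Nat.mul_le_mul_left 8 h5

theorem CON_all (hCTS : CTS_stmt) {n s : ℕ} (C : SCirc n (Fin s)) (k : ℕ) :
    RN ∅ ((univ.filter fun g : Fin s => C.rank g < k).card * (8 * (s + 2) ^ 2)) (CON_A C k) := by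
  induction k with
  | zero =>
    refine RN.mono (Rel.sub (F := (∅ : Set (Fn n))) (G := ∅) (Set.empty_subset _)) le_rfl ?_ (Nat.zero_le _)
    rintro f ⟨g, hg, -⟩
    exact absurd hg (Nat.not_lt_zero _)
  | succ k ih =>
    have h1 : RN (∅ ∪ CON_A C k) ((univ.filter fun g : Fin s => C.rank g = k).card * (8 * (s + 2) ^ 2))
        (⋃ g ∈ (univ.filter fun g : Fin s => C.rank g = k), {fun x => C.val x g}) := by
      refine RN.biUnion _ _ fun g hg => ?_
      have h2 : C.rank g = k := (mem_filter.1 hg).2
      have h3 := CON_gate hCTS C g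
      rw [h2] at h3
      exact RN.mono h3 Set.subset_union_right subset_rfl le_rfl
    refine RN.mono (RN.trans ih h1) le_rfl ?_ ?_
    · rintro f ⟨g, hg, rfl⟩
      by_cases h4 : C.rank g < k
      · exact Or.inl ⟨g, h4, rfl⟩
      · refine Or.inr ?_
        simp only [Set.mem_iUnion, mem_filter, mem_univ, true_and, exists_prop, Set.mem_singleton_iff]
        exact ⟨g, by omega, rfl⟩
    · rw [← Nat.add_mul]
      refine Nat.mul_le_mul_right _ ?_
      rw [← Finset.card_union_of_disjoint]
      · refine Finset.card_le_card fun g hg => ?_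
        rw [mem_union, mem_filter, mem_filter] at hg
        rw [mem_filter]
        rcases hg with hg | hg
        · exact ⟨mem_univ _, by omega⟩
        · exact ⟨mem_univ _, by omega⟩
      · rw [Finset.disjoint_filter]
        intro g _ h5 h6
        omega

theorem CON (hCTS : CTS_stmt) : CON_stmt := by
  intro n s C
  have h1 := CON_all hCTS C (C.rank C.out + 1)
  have h2 : RN ∅ (s * (8 * (s + 2) ^ 2)) {fun x => C.val x C.out} := by
    refine RN.mono h1 le_rfl ?_ (Nat.mul_le_mul_right _ ?_)
    · intro f hf
      rw [Set.mem_singleton_iff] at hf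
      exact ⟨C.out, Nat.lt_succ_self _, hf⟩
    · have h4 := Finset.card_le_univ (univ.filter fun g : Fin s => C.rank g < C.rank C.out + 1)
      rwa [Fintype.card_fin] at h4
  exact RN.toCircuit h2

end Pool.Agent.SGC
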